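import Pool.Agent.helper80.PC2.LALG
import Pool.Agent.helper23.PC2.COL

/-!
# PC project, module NZ: nonvanishing of `Low (xt t) a` on a power of `Rib (xt t) b`
-/

set_option autoImplicit false

namespace Pool.Agent.helper27.PC

open Module Polynomial Finset

/-! ### iterated partial sums -/

/-- iterated partial sums -/
def NZ_T (f : ℕ → ℤ) : ℕ → ℕ → ℤ
  | 0, k => f k
  | _ + 1, 0 => 0
  | r + 1, k + 1 => NZ_T f (r + 1) k + NZ_T f r k

theorem NZ_T_succ (f : ℕ → ℤ) (r k : ℕ) :
    NZ_T f (r + 1) (k + 1) = NZ_T f (r + 1) k + NZ_T f r k := by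
  rw [NZ_T]

theorem NZ_T_zero (f : ℕ → ℤ) (r : ℕ) : NZ_T f (r + 1) 0 = 0 := by
  rw [NZ_T]

theorem NZ_pos (f : ℕ → ℤ) (r0 k0 : ℕ) (h0 : ∀ k, 0 ≤ NZ_T f r0 k)
    (h1 : ∀ k, k0 ≤ k → 0 < NZ_T f r0 k) : ∀ m : ℕ, (∀ k, 0 ≤ NZ_T f (r0 + m) k) ∧
      ∀ k, k0 + m ≤ k → 0 < NZ_T f (r0 + m) k := by
  intro m
  induction m with
  | zero => exact ⟨h0, h1⟩
  | succ m ih =>
    have hn : ∀ k, 0 ≤ NZ_T f (r0 + m + 1) k := by
      intro k
      induction k with
      | zero => rw [NZ_T_zero]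
      | succ k ihk => rw [NZ_T_succ]; exact add_nonneg ihk (ih.1 k)
    refine ⟨hn, ?_⟩
    intro k hk
    obtain ⟨k', rfl⟩ : ∃ k', k = k' + 1 := ⟨k - 1, by omega⟩
    show 0 < NZ_T f (r0 + m + 1) (k' + 1)
    rw [NZ_T_succ]
    exact add_pos_of_nonneg_of_pos (hn k') (ih.2 k' (by omega))

theorem NZ_TA1 (k : ℕ) : NZ_T (fun k => (-1) ^ k) 1 k = if Even k then 0 else 1 := by
  induction k with
  | zero => simp [NZ_T_zero]
  | succ k ih =>
    rw [NZ_T_succ, ih, NZ_T]
    rcases Nat.even_or_odd k with h | h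
    · have h' : ¬ Even (k + 1) := by rw [Nat.even_add_one]; exact fun h2 => h2 h
      rw [if_pos h, if_neg h', h.neg_one_pow]; norm_num
    · have h1 : ¬ Even k := Nat.not_even_iff_odd.2 h
      have h' : Even (k + 1) := by rw [Nat.even_add_one]; exact h1
      rw [if_neg h1, if_pos h', h.neg_one_pow]; norm_num

theorem NZ_TA2 (k : ℕ) : NZ_T (fun k => (-1) ^ k) 2 k = ((k / 2 : ℕ) : ℤ) := by
  induction k with
  | zero => simp [NZ_T_zero]
  | succ k ih =>
    rw [NZ_T_succ, ih, NZ_TA1]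
    split_ifs with h
    · obtain ⟨m, hm⟩ := h
      have : (k + 1) / 2 = k / 2 := by omega
      rw [this]; simp
    · rw [Nat.not_even_iff_odd] at h
      obtain ⟨m, hm⟩ := h
      have : (k + 1) / 2 = k / 2 + 1 := by omega
      rw [this]; push_cast; ring

theorem NZ_TB1 (k : ℕ) : NZ_T (fun k => 1 - (-1) ^ k) 1 k = 2 * ((k / 2 : ℕ) : ℤ) := by
  induction k with
  | zero => simp [NZ_T_zero]
  | succ k ih =>
    rw [NZ_T_succ, ih, NZ_T]
    rcases Nat.even_or_odd k with h | h
    · rw [h.neg_one_pow]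
      obtain ⟨m, hm⟩ := h
      have : (k + 1) / 2 = k / 2 := by omega
      rw [this]; ring
    · rw [h.neg_one_pow]
      obtain ⟨m, hm⟩ := h
      have : (k + 1) / 2 = k / 2 + 1 := by omega
      rw [this]; push_cast; ring

theorem NZ_posA (s k : ℕ) (hs : 2 ≤ s) (hk : s ≤ k) : 0 < NZ_T (fun k => (-1) ^ k) s k := by
  obtain ⟨m, rfl⟩ : ∃ m, s = 2 + m := ⟨s - 2, by omega⟩
  refine (NZ_pos _ 2 2 ?_ ?_ m).2 k hk
  · intro k; rw [NZ_TA2]; positivity
  · intro k hk; rw [NZ_TA2]
    have : 0 < k / 2 := by omega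
    exact_mod_cast this

theorem NZ_posB (s k : ℕ) (hs : 1 ≤ s) (hk : s + 1 ≤ k) :
    0 < NZ_T (fun k => 1 - (-1) ^ k) s k := by
  obtain ⟨m, rfl⟩ : ∃ m, s = 1 + m := ⟨s - 1, by omega⟩
  refine (NZ_pos _ 1 2 ?_ ?_ m).2 k (by omega)
  · intro k; rw [NZ_TB1]; positivity
  · intro k hk; rw [NZ_TB1]
    have : 0 < k / 2 := by omega
    positivity

/-- solving the recursion -/
theorem NZ_rec (s n b : ℕ) (H : ℕ → ℕ → ℤ) (κ : ℕ → ℤ) (hκ : ∀ i, κ i ≠ 0) (f : ℕ → ℤ) (c : ℤ)
    (hc : c ≠ 0) (h0 : ∀ i < s, H i 0 = 0)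
    (h1 : ∀ i < s, ∀ k, (k + 1) * b ≤ n → H i (k + 1) = H i k + κ i * H (i + 1) k)
    (h2 : ∀ k, (k + 1) * b ≤ n → H s k = c * f k) :
    ∀ r, r + 1 ≤ s → ∃ C : ℤ, C ≠ 0 ∧ ∀ k, k * b ≤ n → H (s - (r + 1)) k = C * NZ_T f (r + 1) k := by
  intro r
  induction r with
  | zero =>
    intro hr
    refine ⟨κ (s - 1) * c, mul_ne_zero (hκ _) hc, ?_⟩
    intro k
    induction k with
    | zero => intro _; rw [h0 _ (by omega), NZ_T_zero, mul_zero]
    | succ k ih =>
      intro hk
      have hk' : k * b ≤ n := le_trans (Nat.mul_le_mul_right b (Nat.le_succ k)) hk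
      have e : s - (0 + 1) + 1 = s := by omega
      rw [h1 _ (by omega) k hk, ih hk', NZ_T_succ, e, h2 k hk]
      show κ (s - 1) * c * NZ_T f 1 k + κ (s - (0 + 1)) * (c * f k) =
        κ (s - 1) * c * (NZ_T f (0 + 1) k + NZ_T f 0 k)
      simp only [Nat.zero_add, NZ_T]
      ring
  | succ r ihr =>
    intro hr
    obtain ⟨C, hC, ihC⟩ := ihr (by omega)
    refine ⟨κ (s - (r + 1 + 1)) * C, mul_ne_zero (hκ _) hC, ?_⟩
    intro k
    induction k with
    | zero => intro _; rw [h0 _ (by omega), NZ_T_zero, mul_zero]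
    | succ k ih =>
      intro hk
      have hk' : k * b ≤ n := le_trans (Nat.mul_le_mul_right b (Nat.le_succ k)) hk
      have e : s - (r + 1 + 1) + 1 = s - (r + 1) := by omega
      rw [h1 _ (by omega) k hk, ih hk', NZ_T_succ, e, ihC k hk']
      ring

/-! ### weights -/

theorem NZ_Low_congr {R : Type} [CommRing R] {n k c : ℕ} {u : St →₀ R} (hu : GV n k u)
    (w w' : Lab → R) (h : ∀ l : Lab, n ≤ k + l.2 → w l = w' l) : Low w c u = Low w' c u := by
  unfold Low
  rw [Finsupp.linearCombination_apply, Finsupp.linearCombination_apply]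
  apply Finset.sum_congr rfl
  intro S hS
  beta_reduce
  congr 1
  apply Finset.sum_congr rfl
  intro y hy
  rw [mem_filter] at hy
  have h3 := SD_good_hole (hu S hS) (b := (dn c y).1) (h := (dn c y).2)
    (fun h => hy.2.2 (SD_mem_pos.1 h))
  rw [h _ h3]

theorem NZ_Low_smul {R : Type} [CommRing R] (w : Lab → R) (κ : R) (c : ℕ) (u : St →₀ R) (T : St) :
    Low (fun l => κ * w l) c u T = κ * Low w c u T := by
  rw [LALG_Low_apply, LALG_Low_apply, mul_sum]
  apply Finset.sum_congr rfl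
  intro S _
  have : LALG_kL (fun l => κ * w l) c S T = κ * LALG_kL w c S T := by
    unfold LALG_kL
    rw [mul_sum]
    apply Finset.sum_congr rfl
    intro y _
    split_ifs
    · ring
    · ring
  rw [this]; ring

/-- the sign of the component `false` -/
def NZ_s (t : Bool) : ℤ := if t then 1 else -1

theorem NZ_xt_false (t : Bool) (p : ℕ) : xt t (false, p) = NZ_s t * (-1) ^ p := by
  unfold xt NZ_s; cases t <;> simp

theorem NZ_xt_sq (t : Bool) (l : Lab) : xt t l * xt t l = 1 := by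
  unfold xt
  have h : ((-1 : ℤ) ^ l.2) * (-1) ^ l.2 = 1 := by rw [← pow_add, ← two_mul]; simp
  split_ifs
  · linear_combination h
  · linear_combination h

theorem NZ_xt_up (t : Bool) (c : ℕ) (l : Lab) : xt t (up c l) = (-1) ^ c * xt t l := by
  unfold xt up; simp only [pow_add]; ring

theorem NZ_xt_dn (t : Bool) (c : ℕ) (l : Lab) (h : c ≤ l.2) : xt t (dn c l) = (-1) ^ c * xt t l := by
  have h1 := NZ_xt_up t c (dn c l)
  rw [LALG_up_dn h] at h1
  have h2 : ((-1 : ℤ) ^ c) * (-1) ^ c = 1 := by rw [← pow_add, ← two_mul]; simp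
  rw [h1, ← mul_assoc, h2, one_mul]

theorem NZ_pow_sub (n K : ℕ) (h : K ≤ n) : ((-1 : ℤ)) ^ (n - K) = (-1) ^ n * (-1) ^ K := by
  obtain ⟨m, rfl⟩ : ∃ m, n = m + K := ⟨n - K, by omega⟩
  rw [Nat.add_sub_cancel, pow_add, mul_assoc, ← pow_add, ← two_mul]
  simp

/-- the two types of weights -/
def NZ_W (t : Bool) (i : ℕ) : Lab → ℤ := if Even i then xt t else fun _ => 1

theorem NZ_W_even (t : Bool) {i : ℕ} (h : Even i) : NZ_W t i = xt t := by
  unfold NZ_W; rw [if_pos h]

theorem NZ_W_odd (t : Bool) {i : ℕ} (h : ¬ Even i) : NZ_W t i = fun _ => 1 := by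
  unfold NZ_W; rw [if_neg h]

/-- the factor in the commutators -/
def NZ_k (b i : ℕ) : ℤ := if Even i then -2 else -2 * (-1) ^ b

theorem NZ_sub_mul (a b i : ℕ) : a - (i + 1) * b = a - i * b - b := by
  rw [add_mul, one_mul]; omega

/-- commutator, first part -/
theorem NZ_com1 (hLB : LB_stmt) (t : Bool) (n b a : ℕ) (hb : 1 ≤ b) (hodd : Odd (a - b)) (i : ℕ)
    (hi : (i + 1) * b < a) (k : ℕ) (u : St →₀ ℤ) (hu : GV n k u) (hk : k + b ≤ n) (T : St) :
    Low (NZ_W t i) (a - i * b) (Rib (xt t) b u) T =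
      Rib (xt t) b (Low (NZ_W t i) (a - i * b) u) T +
        NZ_k b i * Low (NZ_W t (i + 1)) (a - (i + 1) * b) u T := by
  have hib : i * b + b < a := by rw [add_mul, one_mul] at hi; exact hi
  have h1 := (hLB ℤ (NZ_W t i) (xt t) n k (a - i * b) b u (by omega) hb hu hk).2.2 (by omega)
  rw [← NZ_sub_mul] at h1
  have hE : Even (i * b) ↔ (Even i ∨ Even b) := Nat.even_mul
  have hp : (Even i → ((-1 : ℤ)) ^ (a - (i + 1) * b) = -1) ∧
      (¬ Even i → ((-1 : ℤ)) ^ (a - (i + 1) * b) = - (-1) ^ b) := by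
    have e2 : a - (i + 1) * b = (a - b) - i * b := by rw [add_mul, one_mul]; omega
    constructor
    · intro hi2
      have h3 : Even (i * b) := hE.2 (Or.inl hi2)
      have : Odd (a - (i + 1) * b) := by
        rw [e2]
        exact Nat.Odd.sub_even (by omega) hodd h3
      exact this.neg_one_pow
    · intro hi2
      rw [e2, NZ_pow_sub _ _ (by omega), hodd.neg_one_pow]
      rcases Nat.even_or_odd b with hb2 | hb2
      · rw [(hE.2 (Or.inr hb2)).neg_one_pow, hb2.neg_one_pow]; ring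
      · have : Odd (i * b) := (Nat.not_even_iff_odd.1 hi2).mul hb2
        rw [this.neg_one_pow, hb2.neg_one_pow]; ring
  have h2 : Low (fun l => NZ_W t i l * xt t (up (a - (i + 1) * b) l) -
      NZ_W t i (dn b l) * xt t (dn b l)) (a - (i + 1) * b) u =
      Low (fun l => NZ_k b i * NZ_W t (i + 1) l) (a - (i + 1) * b) u := by
    apply NZ_Low_congr hu
    intro l hl
    unfold NZ_k
    by_cases hi2 : Even i
    · have hi3 : ¬ Even (i + 1) := by rw [Nat.even_add_one]; exact fun h => h hi2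
      rw [NZ_W_even t hi2, NZ_W_odd t hi3, if_pos hi2, NZ_xt_up, NZ_xt_sq, hp.1 hi2]
      have := NZ_xt_sq t l
      linear_combination (-1 : ℤ) * this
    · have hi3 : Even (i + 1) := by rw [Nat.even_add_one]; exact hi2
      rw [NZ_W_odd t hi2, NZ_W_even t hi3, if_neg hi2, NZ_xt_up, NZ_xt_dn t b l (by omega), hp.2 hi2]
      ring
  rw [h2] at h1
  have h3 := congrArg (fun v : St →₀ ℤ => v T) h1
  simp only [Finsupp.sub_apply] at h3
  rw [NZ_Low_smul] at h3
  linarith

/-! ### coordinates -/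

theorem NZ_coord (hCOL : COL_stmt) (w : Lab → ℤ) (n b K : ℕ) (hb : 1 ≤ b) (hK : K ≤ n) (u : St →₀ ℤ) :
    Rib w b u (col n 0 K) =
      if b ≤ K then (-1) ^ (b - 1) * w (false, n - K) * u (col n 0 (K - b)) else 0 := by
  rw [hCOL ℤ w n b 0 K u hb (Nat.zero_le _) hK, if_neg (by omega), zero_add]

/-- the vector of `k` ribbons -/
noncomputable def NZ_U (t : Bool) (n b : ℕ) : ℕ → (St →₀ ℤ)
  | 0 => Finsupp.single (vac n) 1
  | k + 1 => Rib (xt t) b (NZ_U t n b k)

theorem NZ_app (w : Lab → ℤ) (b : ℕ) : ∀ (k : ℕ) (u : St →₀ ℤ),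
    app w (List.replicate k b) (Rib w b u) = Rib w b (app w (List.replicate k b) u) := by
  intro k
  induction k with
  | zero => intro u; rfl
  | succ k ih =>
    intro u
    rw [List.replicate_succ]
    show app w (List.replicate k b) (Rib w b (Rib w b u)) =
      Rib w b (app w (List.replicate k b) (Rib w b u))
    rw [ih]

theorem NZ_U_eq (t : Bool) (n b : ℕ) : ∀ k : ℕ,
    app (xt t) (List.replicate k b) (Finsupp.single (vac n) 1) = NZ_U t n b k := by
  intro k
  induction k with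
  | zero => rfl
  | succ k ih =>
    rw [List.replicate_succ]
    show app (xt t) (List.replicate k b) (Rib (xt t) b (Finsupp.single (vac n) 1)) = _
    rw [NZ_app, ih]
    rfl

theorem NZ_U_GV (hLG : LG_stmt) (t : Bool) (n b : ℕ) (hb : 1 ≤ b) : ∀ k : ℕ,
    GV n (k * b) (NZ_U t n b k) := by
  intro k
  induction k with
  | zero =>
    intro S hS
    have h := Finsupp.support_single_subset hS
    rw [Finset.mem_singleton] at h
    rw [h, Nat.zero_mul]
    exact SD_good_vac n
  | succ k ih =>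
    have := (hLG ℤ (xt t) n (k * b) b _ hb ih).1
    rw [add_mul, one_mul]
    exact this

theorem NZ_col_zero (n : ℕ) : col n 0 0 = vac n := by
  ext ⟨c, p⟩
  rw [COL_mem]
  unfold vac
  simp only [mem_product, mem_univ, true_and, mem_range]
  cases c <;> simp <;> omega

/-- the coordinate of `NZ_U` -/
noncomputable def NZ_p (t : Bool) (n b k : ℕ) : ℤ := NZ_U t n b k (col n 0 (k * b))

theorem NZ_p_zero (t : Bool) (n b : ℕ) : NZ_p t n b 0 = 1 := by
  unfold NZ_p NZ_U
  rw [Nat.zero_mul, NZ_col_zero, Finsupp.single_eq_same]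

theorem NZ_p_succ (hCOL : COL_stmt) (t : Bool) (n b k : ℕ) (hb : 1 ≤ b) (hk : (k + 1) * b ≤ n) :
    NZ_p t n b (k + 1) = (-1) ^ (b - 1) * xt t (false, n - (k + 1) * b) * NZ_p t n b k := by
  unfold NZ_p
  show Rib (xt t) b (NZ_U t n b k) (col n 0 ((k + 1) * b)) = _
  rw [NZ_coord hCOL _ n b _ hb hk, if_pos (by rw [add_mul, one_mul]; omega)]
  have : (k + 1) * b - b = k * b := by rw [add_mul, one_mul]; omega
  rw [this]

/-- product of signs -/
def NZ_R (t : Bool) (n b a : ℕ) : ℕ → ℤ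
  | 0 => 1
  | m + 1 => (-1) ^ (b - 1) * xt t (false, n - ((m + 1) * b - a)) * NZ_R t n b a m

theorem NZ_R_ne (t : Bool) (n b a : ℕ) : ∀ m : ℕ, NZ_R t n b a m * NZ_R t n b a m = 1 := by
  intro m
  induction m with
  | zero => rfl
  | succ m ih =>
    unfold NZ_R
    have h1 := NZ_xt_sq t (false, n - ((m + 1) * b - a))
    have h2 : ((-1 : ℤ) ^ (b - 1)) * (-1) ^ (b - 1) = 1 := by rw [← pow_add, ← two_mul]; simp
    calc (-1 : ℤ) ^ (b - 1) * xt t (false, n - ((m + 1) * b - a)) * NZ_R t n b a m *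
          ((-1) ^ (b - 1) * xt t (false, n - ((m + 1) * b - a)) * NZ_R t n b a m)
        = ((-1 : ℤ) ^ (b - 1) * (-1) ^ (b - 1)) *
          (xt t (false, n - ((m + 1) * b - a)) * xt t (false, n - ((m + 1) * b - a))) *
          (NZ_R t n b a m * NZ_R t n b a m) := by ring
      _ = 1 := by rw [h1, h2, ih]; norm_num

/-! ### the base -/

theorem NZ_Rp (hCOL : COL_stmt) (t : Bool) (n b a s : ℕ) (hb : 1 ≤ b) (hs : a ≤ s * b) : ∀ k : ℕ,
    k * b + (s * b - a) ≤ n → NZ_R t n b a (s + k) * NZ_p t n b k =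
      NZ_R t n b a s * ((-1) ^ (s * b - a)) ^ k := by
  intro k
  induction k with
  | zero => intro _; rw [NZ_p_zero, add_zero, pow_zero]
  | succ k ih =>
    intro hk
    rw [add_mul, one_mul] at hk
    have h1 : (k + 1) * b ≤ n := by rw [add_mul, one_mul]; omega
    rw [NZ_p_succ hCOL t n b k hb h1]
    show (-1 : ℤ) ^ (b - 1) * xt t (false, n - ((s + k + 1) * b - a)) * NZ_R t n b a (s + k) * _ = _
    have h2 : (s + k + 1) * b - a = (k + 1) * b + (s * b - a) := by
      rw [add_mul, add_mul, add_mul, one_mul]; omega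
    have h3 : (k + 1) * b + (s * b - a) ≤ n := by rw [add_mul, one_mul]; omega
    have h4 : ((-1 : ℤ) ^ (b - 1)) * (-1) ^ (b - 1) = 1 := by rw [← pow_add, ← two_mul]; simp
    have h5 : ((-1 : ℤ) ^ n) * (-1) ^ n = 1 := by rw [← pow_add, ← two_mul]; simp
    have h6 : NZ_s t * NZ_s t = 1 := by unfold NZ_s; cases t <;> simp
    have h7 : ((-1 : ℤ) ^ ((k + 1) * b)) * (-1) ^ ((k + 1) * b) = 1 := by
      rw [← pow_add, ← two_mul]; simp
    rw [h2, NZ_xt_false, NZ_xt_false, NZ_pow_sub _ _ h3, NZ_pow_sub _ _ h1, pow_add (-1 : ℤ) ((k + 1) * b),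
      pow_succ]
    have ih' := ih (by omega)
    calc (-1 : ℤ) ^ (b - 1) * (NZ_s t * ((-1) ^ n * ((-1) ^ ((k + 1) * b) * (-1) ^ (s * b - a)))) *
          NZ_R t n b a (s + k) *
          ((-1) ^ (b - 1) * (NZ_s t * ((-1) ^ n * (-1) ^ ((k + 1) * b))) * NZ_p t n b k)
        = ((-1 : ℤ) ^ (b - 1) * (-1) ^ (b - 1)) * (NZ_s t * NZ_s t) * ((-1) ^ n * (-1) ^ n) *
          ((-1) ^ ((k + 1) * b) * (-1) ^ ((k + 1) * b)) * (-1) ^ (s * b - a) *
          (NZ_R t n b a (s + k) * NZ_p t n b k) := by ring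
      _ = NZ_R t n b a s * (((-1) ^ (s * b - a)) ^ k * (-1) ^ (s * b - a)) := by
          rw [h4, h5, h6, h7, ih']; ring

theorem NZ_Dg_apply {R : Type} [CommRing R] (f : Lab → R) (u : St →₀ R) (T : St) :
    Dg f u T = (∑ l ∈ T, f l) * u T := by
  classical
  unfold Dg
  rw [Finsupp.linearCombination_apply, Finsupp.sum_apply]
  unfold Finsupp.sum
  have h : ∀ S ∈ u.support, (u S • (Finsupp.single S (∑ l ∈ S, f l) : St →₀ R)) T =
      if S = T then (∑ l ∈ T, f l) * u T else 0 := by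
    intro S _
    rw [Finsupp.smul_apply, Finsupp.single_apply, smul_eq_mul]
    split_ifs with h
    · rw [h, mul_comm]
    · rw [mul_zero]
  rw [Finset.sum_congr rfl h, Finset.sum_ite_eq']
  split_ifs with h2
  · rfl
  · rw [Finsupp.notMem_support_iff.1 h2, mul_zero]

/-- the diagonal weight in one component -/
def NZ_g (b p : ℕ) : ℤ := (-1) ^ p - if b ≤ p then (-1) ^ (p - b) else 0

theorem NZ_g_ge {b p : ℕ} (hb : Odd b) (h : b ≤ p) : NZ_g b p = 2 * (-1) ^ p := by
  unfold NZ_g
  rw [if_pos h, NZ_pow_sub _ _ h, hb.neg_one_pow]; ring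

theorem NZ_g_sum {b : ℕ} (hb : Odd b) : ∀ m : ℕ, ∑ p ∈ range (b + m), NZ_g b p = - (-1) ^ (b + m) := by
  intro m
  induction m with
  | zero =>
    have h : ∀ p ∈ range (b + 0), NZ_g b p = (-1) ^ p := by
      intro p hp
      rw [mem_range] at hp
      unfold NZ_g
      rw [if_neg (by omega), sub_zero]
    rw [Finset.sum_congr rfl h, add_zero, neg_one_geom_sum, hb.neg_one_pow, if_neg]
    · norm_num
    · exact Nat.not_even_iff_odd.2 hb
  | succ m ih =>
    rw [← add_assoc, Finset.sum_range_succ, ih, NZ_g_ge hb (by omega), pow_succ]; ring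

theorem NZ_phi (t : Bool) (n b K : ℕ) (hb : Odd b) (hK : K + b ≤ n) :
    ∑ l ∈ col n 0 K, (1 * xt t l - if b ≤ l.2 then 1 * xt t (dn b l) else 0) =
      - (-1) ^ n + NZ_s t * ((-1) ^ n - 2 * (-1) ^ (n - K)) := by
  have h1 : Disjoint (((range (n + 1)).erase (n - 0)).image fun p => ((true, p) : Lab))
      (((range (n + 1)).erase (n - K)).image fun p => ((false, p) : Lab)) := by
    rw [Finset.disjoint_left]
    intro x hx hx'
    rw [mem_image] at hx hx'
    obtain ⟨p, _, rfl⟩ := hx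
    obtain ⟨q, _, hq⟩ := hx'
    simp at hq
  unfold col
  rw [sum_union h1, sum_image (by intro x _ y _ h; simpa using h),
    sum_image (by intro x _ y _ h; simpa using h)]
  have ht : ∀ p : ℕ, (1 * xt t (true, p) - if b ≤ ((true, p) : Lab).2 then 1 * xt t (dn b (true, p)) else 0) =
      NZ_g b p := by
    intro p
    unfold NZ_g xt dn
    simp
  have hf : ∀ p : ℕ, (1 * xt t (false, p) - if b ≤ ((false, p) : Lab).2 then 1 * xt t (dn b (false, p)) else 0) =
      NZ_s t * NZ_g b p := by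
    intro p
    rw [NZ_xt_false]
    have : xt t (dn b (false, p)) = NZ_s t * (-1) ^ (p - b) := NZ_xt_false t (p - b)
    rw [this]
    unfold NZ_g
    split_ifs
    · ring
    · ring
  rw [Finset.sum_congr rfl fun p _ => ht p, Finset.sum_congr rfl fun p _ => hf p, ← mul_sum]
  obtain ⟨m, rfl⟩ : ∃ m, n = b + m := ⟨n - b, by omega⟩
  have e1 : ∑ p ∈ (range (b + m + 1)).erase (b + m - 0), NZ_g b p = - (-1) ^ (b + m) := by
    rw [← NZ_g_sum hb m, Nat.sub_zero]
    congr 1
    ext p
    simp only [mem_erase, mem_range]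
    omega
  have e2 : ∑ p ∈ (range (b + m + 1)).erase (b + m - K), NZ_g b p =
      (-1) ^ (b + m) - 2 * (-1) ^ (b + m - K) := by
    have h := Finset.add_sum_erase (range (b + m + 1)) (NZ_g b) (a := b + m - K)
      (by rw [mem_range]; omega)
    have h2 := NZ_g_sum hb (m + 1)
    rw [← add_assoc] at h2
    rw [h2, NZ_g_ge hb (by omega), pow_succ] at h
    linarith
  rw [e1, e2]

/-- the commutator at the crossing -/
noncomputable def NZ_B (t : Bool) (n b a i k : ℕ) : ℤ :=
  Low (NZ_W t i) (a - i * b) (Rib (xt t) b (NZ_U t n b k)) (col n 0 ((i + 1 + k) * b - a)) -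
    Rib (xt t) b (Low (NZ_W t i) (a - i * b) (NZ_U t n b k)) (col n 0 ((i + 1 + k) * b - a))

theorem NZ_base (hLB : LB_stmt) (hLG : LG_stmt) (hCOL : COL_stmt) (t : Bool) (n b a i : ℕ)
    (hb : 1 ≤ b) (hab : b < a) (hodd : Odd (a - b)) (hi : i * b < a) (hi2 : a ≤ (i + 1) * b) :
    (a < (i + 1) * b ∨ t = true → ∃ c : ℤ, c ≠ 0 ∧ ∀ k, (k + 1) * b ≤ n →
      NZ_R t n b a (i + 1 + k) * NZ_B t n b a i k = c * (-1) ^ k) ∧
    (a = (i + 1) * b → t = false → ∃ c : ℤ, c ≠ 0 ∧ ∀ k, (k + 1) * b ≤ n →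
      NZ_R t n b a (i + 1 + k) * NZ_B t n b a i k = c * (1 - (-1) ^ k)) := by
  have hi2' : a ≤ i * b + b := by rw [add_mul, one_mul] at hi2; exact hi2
  have hi0 : 1 ≤ i := by
    by_contra h
    have : i = 0 := by omega
    subst this
    omega
  have hRs : NZ_R t n b a (i + 1) ≠ 0 := by
    intro h
    have := NZ_R_ne t n b a (i + 1)
    rw [h] at this; norm_num at this
  have hib : i * b = (i - 1) * b + b := by
    obtain ⟨m, rfl⟩ : ∃ m, i = m + 1 := ⟨i - 1, by omega⟩
    rw [Nat.add_sub_cancel, add_mul, one_mul]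
  have hs0 : NZ_s t ≠ 0 := by unfold NZ_s; cases t <;> simp
  -- case of a proper crossing
  have hA : a < (i + 1) * b → ∃ c : ℤ, c ≠ 0 ∧ ∀ k, (k + 1) * b ≤ n →
      NZ_R t n b a (i + 1 + k) * NZ_B t n b a i k = c * (-1) ^ k := by
    intro hlt
    have hlt' : a < i * b + b := by rw [add_mul, one_mul] at hlt; exact hlt
    have hj : b - (a - i * b) = (i + 1) * b - a := by rw [add_mul, one_mul]; omega
    have key : ∀ k, (k + 1) * b ≤ n → NZ_B t n b a i k =
        (-1) ^ ((i + 1) * b - a - 1) *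
          (if Even i then -2 else 2 * (NZ_s t * (-1) ^ n * (-1) ^ (k * b + ((i + 1) * b - a)))) *
          NZ_p t n b k := by
      intro k hk
      have hk' : k * b + b ≤ n := by rw [add_mul, one_mul] at hk; exact hk
      have h1 := (hLB ℤ (NZ_W t i) (xt t) n (k * b) (a - i * b) b (NZ_U t n b k) (by omega) hb
        (NZ_U_GV hLG t n b hb k) hk').1 (by omega)
      rw [hj] at h1
      unfold NZ_B
      have h2 := congrArg (fun v : St →₀ ℤ => v (col n 0 ((i + 1 + k) * b - a))) h1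
      simp only [Finsupp.sub_apply] at h2
      rw [h2]
      have hK : (i + 1 + k) * b - a = k * b + ((i + 1) * b - a) := by
        rw [add_mul (i + 1) k]; omega
      have hKn : k * b + ((i + 1) * b - a) ≤ n := by rw [← hj]; omega
      rw [hK, NZ_coord hCOL _ n _ _ (by omega) hKn, if_pos (by omega)]
      have e3 : k * b + ((i + 1) * b - a) - ((i + 1) * b - a) = k * b := by omega
      rw [e3]
      unfold NZ_p
      congr 2
      -- the weight
      have hdn : a - i * b ≤ ((false, n - (k * b + ((i + 1) * b - a))) : Lab).2 := by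
        show a - i * b ≤ n - (k * b + ((i + 1) * b - a))
        rw [← hj]; omega
      by_cases hi3 : Even i
      · rw [if_pos hi3, NZ_W_even t hi3, NZ_xt_up, mul_assoc, NZ_xt_sq, NZ_xt_sq]
        have h5 : Odd ((i + 1) * b - a) := by
          have h6 : Even (i * b) := hi3.mul_right b
          have h7 : (i + 1) * b - a + (a - b) = i * b := by rw [add_mul, one_mul]; omega
          by_contra h8
          rw [Nat.not_odd_iff_even] at h8
          have := h8.add_odd hodd
          rw [h7] at this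
          exact (Nat.not_even_iff_odd.2 this) h6
        rw [h5.neg_one_pow]; norm_num
      · rw [if_neg hi3, NZ_W_odd t hi3, NZ_xt_dn t _ _ hdn]
        have h5 : Odd (a - i * b) := by
          have h6 : Even ((i - 1) * b) := by
            have : Even (i - 1) := by
              rw [Nat.not_even_iff_odd] at hi3
              obtain ⟨m, hm⟩ := hi3
              exact ⟨m, by omega⟩
            exact this.mul_right b
          have h7 : a - i * b = (a - b) - (i - 1) * b := by omega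
          rw [h7]
          exact Nat.Odd.sub_even (by omega) hodd h6
        rw [h5.neg_one_pow, NZ_xt_false, NZ_pow_sub _ _ hKn]
        ring
    by_cases hi3 : Even i
    · have h5 : Odd ((i + 1) * b - a) := by
        have h6 : Even (i * b) := hi3.mul_right b
        have h7 : (i + 1) * b - a + (a - b) = i * b := by rw [add_mul, one_mul]; omega
        by_contra h8
        rw [Nat.not_odd_iff_even] at h8
        have := h8.add_odd hodd
        rw [h7] at this
        exact (Nat.not_even_iff_odd.2 this) h6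
      refine ⟨NZ_R t n b a (i + 1) * ((-1) ^ ((i + 1) * b - a - 1) * (-2)), ?_, ?_⟩
      · apply mul_ne_zero hRs
        apply mul_ne_zero (pow_ne_zero _ (by norm_num)) (by norm_num)
      · intro k hk
        have hk' : k * b + b ≤ n := by rw [add_mul, one_mul] at hk; exact hk
        have h8 := NZ_Rp hCOL t n b a (i + 1) hb hi2 k (by rw [← hj]; omega)
        rw [h5.neg_one_pow] at h8
        rw [key k hk, if_pos hi3]
        linear_combination ((-1) ^ ((i + 1) * b - a - 1) * (-2)) * h8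
    · have h5 : Odd (a - i * b) := by
        have h6 : Even ((i - 1) * b) := by
          have : Even (i - 1) := by
            rw [Nat.not_even_iff_odd] at hi3
            obtain ⟨m, hm⟩ := hi3
            exact ⟨m, by omega⟩
          exact this.mul_right b
        have h7 : a - i * b = (a - b) - (i - 1) * b := by omega
        rw [h7]
        exact Nat.Odd.sub_even (by omega) hodd h6
      have h9 : Odd ((i + 1) * b - a + b) := by
        have e : (i + 1) * b - a + b + (a - i * b) = b + b := by rw [add_mul, one_mul]; omega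
        by_contra h10
        rw [Nat.not_odd_iff_even] at h10
        have := h10.add_odd h5
        rw [e] at this
        exact (Nat.not_even_iff_odd.2 this) ⟨b, rfl⟩
      refine ⟨NZ_R t n b a (i + 1) * ((-1) ^ ((i + 1) * b - a - 1) *
        (2 * (NZ_s t * (-1) ^ n * (-1) ^ ((i + 1) * b - a)))), ?_, ?_⟩
      · apply mul_ne_zero hRs
        apply mul_ne_zero (pow_ne_zero _ (by norm_num))
        apply mul_ne_zero (by norm_num)
        exact mul_ne_zero (mul_ne_zero hs0 (pow_ne_zero _ (by norm_num))) (pow_ne_zero _ (by norm_num))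
      · intro k hk
        have hk' : k * b + b ≤ n := by rw [add_mul, one_mul] at hk; exact hk
        have h8 := NZ_Rp hCOL t n b a (i + 1) hb hi2 k (by rw [← hj]; omega)
        have h11 : (((-1 : ℤ)) ^ ((i + 1) * b - a)) ^ k * (-1) ^ (k * b) = (-1) ^ k := by
          rw [mul_comm k b, pow_mul (-1 : ℤ) b k, ← mul_pow, ← pow_add, h9.neg_one_pow]
        rw [key k hk, if_neg hi3, pow_add (-1 : ℤ) (k * b)]
        linear_combination ((-1) ^ ((i + 1) * b - a - 1) *
          (2 * (NZ_s t * (-1) ^ n * ((-1) ^ (k * b) * (-1) ^ ((i + 1) * b - a))))) * h8 +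
          NZ_R t n b a (i + 1) * ((-1) ^ ((i + 1) * b - a - 1) *
          (2 * (NZ_s t * (-1) ^ n * (-1) ^ ((i + 1) * b - a)))) * h11
  -- case of the diagonal operator
  have hD : a = (i + 1) * b → ∀ k, (k + 1) * b ≤ n →
      NZ_R t n b a (i + 1 + k) * NZ_B t n b a i k = NZ_R t n b a (i + 1) *
        (- (-1) ^ n + NZ_s t * ((-1) ^ n - 2 * ((-1) ^ n * (-1) ^ k))) := by
    intro ha k hk
    have hk' : k * b + b ≤ n := by rw [add_mul, one_mul] at hk; exact hk
    have ha' : a = i * b + b := by rw [add_mul, one_mul] at ha; exact ha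
    have hib2 : Odd (i * b) := by
      have : a - b = i * b := by omega
      rw [this] at hodd; exact hodd
    rw [Nat.odd_mul] at hib2
    have hi3 : ¬ Even i := Nat.not_even_iff_odd.2 hib2.1
    have e0 : a - i * b = b := by omega
    have h1 := (hLB ℤ (NZ_W t i) (xt t) n (k * b) (a - i * b) b (NZ_U t n b k) (by omega) hb
      (NZ_U_GV hLG t n b hb k) hk').2.1 e0
    have hK : (i + 1 + k) * b - a = k * b := by
      rw [add_mul (i + 1) k, ha]; omega
    unfold NZ_B
    have h2 := congrArg (fun v : St →₀ ℤ => v (col n 0 ((i + 1 + k) * b - a))) h1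
    simp only [Finsupp.sub_apply] at h2
    rw [h2, NZ_Dg_apply, hK, NZ_W_odd t hi3, NZ_phi t n b (k * b) hib2.2 hk',
      NZ_pow_sub n (k * b) (by omega)]
    have h8 := NZ_Rp hCOL t n b a (i + 1) hb hi2 k (by rw [← ha]; omega)
    have e4 : (i + 1) * b - a = 0 := by omega
    rw [e4, pow_zero, one_pow, mul_one] at h8
    have e5 : ((-1 : ℤ)) ^ (k * b) = (-1) ^ k := by
      rw [mul_comm k b, pow_mul, hib2.2.neg_one_pow]
    rw [e5]
    unfold NZ_p at h8
    linear_combination (- (-1) ^ n + NZ_s t * ((-1) ^ n - 2 * ((-1) ^ n * (-1) ^ k))) * h8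
  refine ⟨?_, ?_⟩
  · rintro (h | h)
    · exact hA h
    · rcases hi2.lt_or_eq with h2 | h2
      · exact hA h2
      · refine ⟨NZ_R t n b a (i + 1) * (-2 * (-1) ^ n), mul_ne_zero hRs
          (mul_ne_zero (by norm_num) (pow_ne_zero _ (by norm_num))), ?_⟩
        intro k hk
        rw [hD h2 k hk]
        have : NZ_s t = 1 := by rw [h]; rfl
        rw [this]; ring
  · intro h ht
    refine ⟨NZ_R t n b a (i + 1) * (-2 * (-1) ^ n), mul_ne_zero hRs
      (mul_ne_zero (by norm_num) (pow_ne_zero _ (by norm_num))), ?_⟩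
    intro k hk
    rw [hD h k hk]
    have : NZ_s t = -1 := by rw [ht]; rfl
    rw [this]; ring

/-- nonvanishing -/
theorem NZ (hLB : LB_stmt) (hLG : LG_stmt) (hCOL : COL_stmt) : NZ_stmt := by
  intro t n b a k hb hab hodd hak hkn
  have hex : ∃ s, a ≤ s * b := ⟨a, by nlinarith⟩
  obtain ⟨s, hs, hmin⟩ : ∃ s, a ≤ s * b ∧ ∀ i < s, i * b < a := by
    classical
    refine ⟨Nat.find hex, Nat.find_spec hex, ?_⟩
    intro i hi
    have := Nat.find_min hex hi
    omega
  have hs2 : 2 ≤ s := by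
    by_contra h
    have h1 : s ≤ 1 := by omega
    have h2 : s * b ≤ 1 * b := Nat.mul_le_mul_right b h1
    omega
  have hsk : s ≤ k := by
    by_contra h
    have h1 := hmin k (by omega)
    cases t <;> simp at hak <;> omega
  rw [NZ_U_eq]
  obtain ⟨i0, rfl⟩ : ∃ i0, s = i0 + 1 := ⟨s - 1, by omega⟩
  obtain ⟨hbA, hbB⟩ := NZ_base hLB hLG hCOL t n b a i0 hb hab hodd (hmin i0 (by omega)) hs
  -- the table
  set G : ℕ → ℕ → ℤ := fun i k => if i < i0 + 1 then
    Low (NZ_W t i) (a - i * b) (NZ_U t n b k) (col n 0 ((i + k) * b - a)) else NZ_B t n b a i0 k with hG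
  set H : ℕ → ℕ → ℤ := fun i k => NZ_R t n b a (i + k) * G i k with hH
  set κ : ℕ → ℤ := fun i => if i + 1 < i0 + 1 then NZ_k b i else 1 with hκ
  have hκ0 : ∀ i, κ i ≠ 0 := by
    intro i
    rw [hκ]
    beta_reduce
    split_ifs
    · unfold NZ_k
      split_ifs
      · norm_num
      · exact mul_ne_zero (by norm_num) (pow_ne_zero _ (by norm_num))
    · norm_num
  have h0 : ∀ i < i0 + 1, H i 0 = 0 := by
    intro i hi
    rw [hH, hG]
    beta_reduce
    rw [if_pos hi]
    have hv := NZ_U_GV hLG t n b hb 0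
    have hai := hmin i hi
    have h1 := (hLG ℤ (NZ_W t i) n (0 * b) (a - i * b) _ (by omega) hv).2.2 (by omega)
    rw [h1, Finsupp.zero_apply, mul_zero]
  have h1 : ∀ i < i0 + 1, ∀ k, (k + 1) * b ≤ n → H i (k + 1) = H i k + κ i * H (i + 1) k := by
    intro i hi k hk
    have hk' : k * b + b ≤ n := by rw [add_mul, one_mul] at hk; exact hk
    have hgv := NZ_U_GV hLG t n b hb k
    have hai := hmin i hi
    -- first part : action of `Rib`
    have hrib : Rib (xt t) b (Low (NZ_W t i) (a - i * b) (NZ_U t n b k))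
        (col n 0 ((i + (k + 1)) * b - a)) =
        (-1) ^ (b - 1) * xt t (false, n - ((i + k + 1) * b - a)) *
          Low (NZ_W t i) (a - i * b) (NZ_U t n b k) (col n 0 ((i + k) * b - a)) := by
      have e1 : i + (k + 1) = i + k + 1 := by ring
      have e2 : (i + k + 1) * b = i * b + k * b + b := by ring
      rw [e1, NZ_coord hCOL _ n b _ hb (by rw [e2]; omega)]
      split_ifs with h
      · have e3 : (i + k + 1) * b - a - b = (i + k) * b - a := by
          rw [add_mul (i + k) 1, one_mul]; omega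
        rw [e3]
      · have h2 : k * b < a - i * b := by rw [e2] at h; omega
        have h3 := (hLG ℤ (NZ_W t i) n (k * b) (a - i * b) _ (by omega) hgv).2.2 h2
        rw [h3, Finsupp.zero_apply, mul_zero]
    have e5 : i + (k + 1) = i + k + 1 := by ring
    have e6 : i + 1 + k = i + k + 1 := by ring
    rw [hH, hG, hκ]
    beta_reduce
    rw [if_pos hi, if_pos hi]
    by_cases hi1 : i + 1 < i0 + 1
    · rw [if_pos hi1, if_pos hi1]
      have hc := NZ_com1 hLB t n b a hb hodd i (hmin (i + 1) hi1) (k * b) (NZ_U t n b k) hgv hk'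
        (col n 0 ((i + (k + 1)) * b - a))
      have hU : NZ_U t n b (k + 1) = Rib (xt t) b (NZ_U t n b k) := rfl
      rw [hU, hc, hrib, e5, e6]
      show NZ_R t n b a (i + k + 1) * _ = _
      have hR : NZ_R t n b a (i + k + 1) =
        (-1) ^ (b - 1) * xt t (false, n - ((i + k + 1) * b - a)) * NZ_R t n b a (i + k) := rfl
      have h4 : ((-1 : ℤ) ^ (b - 1)) * (-1) ^ (b - 1) = 1 := by rw [← pow_add, ← two_mul]; simp
      have h5 := NZ_xt_sq t (false, n - ((i + k + 1) * b - a))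
      rw [hR]
      set X := xt t (false, n - ((i + k + 1) * b - a))
      set Y := (-1 : ℤ) ^ (b - 1)
      set L := Low (NZ_W t i) (a - i * b) (NZ_U t n b k) (col n 0 ((i + k) * b - a))
      linear_combination (X * X * NZ_R t n b a (i + k) * L) * h4 + (NZ_R t n b a (i + k) * L) * h5
    · have hii : i = i0 := by omega
      subst hii
      rw [if_neg hi1, if_neg hi1, one_mul]
      have hU : NZ_U t n b (k + 1) = Rib (xt t) b (NZ_U t n b k) := rfl
      unfold NZ_B
      rw [hU, e6, ← e5, hrib, e5]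
      have hR : NZ_R t n b a (i + k + 1) =
        (-1) ^ (b - 1) * xt t (false, n - ((i + k + 1) * b - a)) * NZ_R t n b a (i + k) := rfl
      have h4 : ((-1 : ℤ) ^ (b - 1)) * (-1) ^ (b - 1) = 1 := by rw [← pow_add, ← two_mul]; simp
      have h5 := NZ_xt_sq t (false, n - ((i + k + 1) * b - a))
      rw [hR]
      set X := xt t (false, n - ((i + k + 1) * b - a))
      set Y := (-1 : ℤ) ^ (b - 1)
      set L := Low (NZ_W t i) (a - i * b) (NZ_U t n b k) (col n 0 ((i + k) * b - a))
      linear_combination (X * X * NZ_R t n b a (i + k) * L) * h4 + (NZ_R t n b a (i + k) * L) * h5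
  have hHs : ∀ k, H (i0 + 1) k = NZ_R t n b a (i0 + 1 + k) * NZ_B t n b a i0 k := by
    intro k
    rw [hH, hG]
    beta_reduce
    rw [if_neg (lt_irrefl _)]
  have fin : ∀ f : ℕ → ℤ, 0 < NZ_T f (i0 + 1) k → (∃ c : ℤ, c ≠ 0 ∧ ∀ k, (k + 1) * b ≤ n →
      NZ_R t n b a (i0 + 1 + k) * NZ_B t n b a i0 k = c * f k) →
      Low (xt t) a (NZ_U t n b k) ≠ 0 := by
    rintro f hf ⟨c, hc, hcf⟩ hzero
    obtain ⟨C, hC, hCk⟩ := NZ_rec (i0 + 1) n b H κ hκ0 f c hc h0 h1
      (fun k hk => by rw [hHs, hcf k hk]) i0 le_rfl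
    have h2 := hCk k hkn
    rw [Nat.sub_self, hH, hG] at h2
    beta_reduce at h2
    rw [if_pos (Nat.succ_pos _), NZ_W_even t ⟨0, rfl⟩, Nat.zero_mul, Nat.sub_zero, hzero,
      Finsupp.zero_apply, mul_zero] at h2
    exact (mul_ne_zero hC hf.ne') h2.symm
  by_cases hcase : a < (i0 + 1) * b ∨ t = true
  · exact fin _ (NZ_posA _ _ hs2 hsk) (hbA hcase)
  · rw [not_or] at hcase
    have ha : a = (i0 + 1) * b := by omega
    have ht : t = false := by simpa using hcase.2
    have hk2 : i0 + 1 + 1 ≤ k := by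
      by_contra h
      have h3 : k = i0 + 1 := by omega
      subst h3
      rw [ht] at hak
      simp at hak
      omega
    exact fin _ (NZ_posB _ _ (by omega) hk2) (hbB ha ht)

end Pool.Agent.helper27.PC
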